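import Pool.Agent.H23.DomRootProof

open Pool.Agent.H23.DomRoot

theorem Pool.Agent.Results.MP_ce8257_co.Oboudi.result {V : Type} [Fintype V] (G : SimpleGraph V)
    (hiso : ∀ v, ∃ w, G.Adj v w)
    (hreal : ∀ z : ℂ, (domPoly G).IsRoot z → z.im = 0) :
    StarLike G :=
  main hiso hreal
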